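import Pool.Agent.LibKC98.Main

/-!
# MP_56bfc6_co: log-concavity of `b_{n,k}` (centralizer of 1 in the plactic monoid) at both ends

The definitions are in `Pool/Agent/LibKC98/Defs.lean`:
* `KC98.KStep`, `KC98.KEq`: Knuth transpositions inside a word, and the equivalence they generate;
* `KC98.Cent w`: the words `1 w` and `w 1` are Knuth equivalent;
* `KC98.Bset n k`: the words of length `n` with letter set exactly `{1, ..., k}` and `Cent w`;
* `KC98.b n k`: their number `b_{n,k}`.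
-/

namespace Pool.Agent.Results.MP_56bfc6_co.BothEnds

/-- Log-concavity `b_{n,k-1} b_{n,k+1} ≤ b_{n,k}^2` for `k ≥ 2` as soon as `n ≥ 128 k^8` or
`n ≥ 1000 (n + 1 - k)^9`. -/
theorem result (n k : ℕ) (hk : 2 ≤ k) (hn : 128 * k ^ 8 ≤ n ∨ 1000 * (n + 1 - k) ^ 9 ≤ n) :
    KC98.b n (k - 1) * KC98.b n (k + 1) ≤ KC98.b n k ^ 2 :=
  KC98.main n k hk hn

end Pool.Agent.Results.MP_56bfc6_co.BothEnds
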