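import Pool.Agent.LibKC98.G1

/-!
# MP_56bfc6_co: exponential growth of `b_{n,k}` at both ends of the row

The definitions are in `Pool/Agent/LibKC98/Defs.lean`:
* `KC98.KStep`, `KC98.KEq`: Knuth transpositions inside a word, and the equivalence they generate;
* `KC98.Cent w`: the words `1 w` and `w 1` are Knuth equivalent;
* `KC98.Bset n k`: the words of length `n` with letter set exactly `{1, ..., k}` and `Cent w`;
* `KC98.b n k`: their number `b_{n,k}`.
-/

namespace Pool.Agent.Results.MP_56bfc6_co.GrowthRates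

open Filter Topology

/-- The exponential growth rates of `b_{n,k}` (`k ≥ 2` fixed) and of `b_{n,n-j}` (`j` fixed). -/
theorem result :
    (∀ k : ℕ, 2 ≤ k →
      Tendsto (fun n : ℕ => Real.log (KC98.b n k : ℝ) / n) atTop (𝓝 (Real.log k))) ∧
    (∀ j : ℕ,
      Tendsto (fun n : ℕ => Real.log (KC98.b n (n - j) : ℝ) / n) atTop
        (𝓝 (2 * Real.log ((j : ℝ) + 1)))) :=
  ⟨KC98.growth_left, KC98.growth_right⟩

end Pool.Agent.Results.MP_56bfc6_co.GrowthRates
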